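import Mathlib.LinearAlgebra.Pi
import Mathlib.Algebra.Notation.Lemmas
import Mathlib.Algebra.Order.Ring.Star
import Mathlib.Algebra.Order.Archimedean.Real.Basic
import Mathlib.Data.Rat.Star
import Mathlib.Tactic.Algebra.Basic

/-!
Symmetric polytopes cut out by finitely many linear functionals, with a finite set of boundary
points that are pairwise separated and lie in an open half space.
-/

namespace Pool.Agent.MP_39e5ce_co

open Set

/-- A certificate in dimension `d` for `n` points. -/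
def Good (d n : ℕ) : Prop :=
  ∃ (S : Set ((Fin d → ℝ) →ₗ[ℝ] ℝ)) (A : Finset (Fin d → ℝ)) (u : (Fin d → ℝ) →ₗ[ℝ] ℝ) (C : ℝ),
    S.Finite ∧ A.card = n ∧
    (∀ x : Fin d → ℝ, (∀ φ ∈ S, |φ x| ≤ 1) → ∀ j, |x j| ≤ C) ∧
    (∀ a ∈ A, ∀ φ ∈ S, |φ a| ≤ 1) ∧
    (∀ a ∈ A, ∃ φ ∈ S, 1 ≤ |φ a|) ∧
    (∀ a ∈ A, ∀ b ∈ A, a ≠ b → ∃ φ ∈ S, 1 ≤ |φ a - φ b|) ∧
    (∀ a ∈ A, 0 < u a)

/-- The tail map as a linear map. -/
def tailL (d : ℕ) : (Fin (d + 1) → ℝ) →ₗ[ℝ] (Fin d → ℝ) where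
  toFun x := fun j => x j.succ
  map_add' _ _ := rfl
  map_smul' _ _ := rfl

@[simp] lemma tailL_cons (d : ℕ) (w : ℝ) (a : Fin d → ℝ) :
    tailL d (Fin.cons w a : Fin (d + 1) → ℝ) = a := by
  funext j; simp [tailL]

lemma Good.step {d n : ℕ} (h : Good d n) : Good (d + 1) (3 * n + 1) := by
  classical
  obtain ⟨S, A, u, C, hS, hA, hC, hin, hbd, hsep, hu⟩ := h
  obtain ⟨η, hη, hηu⟩ : ∃ η : ℝ, 0 < η ∧ ∀ a ∈ A, η < u a := by
    rcases A.eq_empty_or_nonempty with rfl | hne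
    · exact ⟨1, one_pos, by simp⟩
    · obtain ⟨a0, ha0, hmin⟩ := A.exists_min_image (fun a => u a) hne
      refine ⟨u a0 / 2, by have := hu a0 ha0; positivity, fun a ha => ?_⟩
      have := hu a0 ha0
      have := hmin a ha
      linarith
  have h0A : (0 : Fin d → ℝ) ∉ A := fun h0 => by simpa using hu 0 h0
  let W : Finset ℝ := {-1, 0, 1}
  let c : ℝ × (Fin d → ℝ) → (Fin (d + 1) → ℝ) := fun p => Fin.cons p.1 p.2
  have hc : Function.Injective c := by
    intro p q hpq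
    have h1 : p.1 = q.1 := by simpa [c] using congrFun hpq 0
    have h2 : p.2 = q.2 := by
      funext j; simpa [c] using congrFun hpq j.succ
    exact Prod.ext h1 h2
  let P : Finset (ℝ × (Fin d → ℝ)) := insert (1, 0) (W ×ˢ A)
  have hP : ∀ p ∈ P, (p.1 = -1 ∨ p.1 = 0 ∨ p.1 = 1) ∧ (p.2 ∈ A ∨ (p.1 = 1 ∧ p.2 = 0)) := by
    intro p hp
    simp only [P, W, Finset.mem_insert, Finset.mem_product, Finset.mem_singleton] at hp
    rcases hp with rfl | ⟨h1, h2⟩
    · simp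
    · exact ⟨h1, Or.inl h2⟩
  let p0 : (Fin (d + 1) → ℝ) →ₗ[ℝ] ℝ := LinearMap.proj 0
  refine ⟨insert p0 ((fun φ => φ ∘ₗ tailL d) '' S), P.image c, u ∘ₗ tailL d + η • p0, max C 1,
    (hS.image _).insert _, ?_, ?_, ?_, ?_, ?_, ?_⟩
  · rw [Finset.card_image_of_injective _ hc, Finset.card_insert_of_notMem, Finset.card_product, hA]
    · have : W.card = 3 := by
        simp only [W]
        rw [Finset.card_insert_of_notMem (by norm_num), Finset.card_pair (by norm_num)]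
      rw [this]
    · simp [h0A]
  · intro x hx j
    refine Fin.cases ?_ (fun j => ?_) j
    · have := hx p0 (mem_insert _ _)
      exact le_trans (by simpa [p0] using this) (le_max_right _ _)
    · have := hC (tailL d x) (fun φ hφ => hx _ (mem_insert_of_mem _ ⟨φ, hφ, rfl⟩)) j
      exact le_trans this (le_max_left _ _)
  · intro a ha φ hφ
    obtain ⟨p, hp, rfl⟩ := Finset.mem_image.1 ha
    obtain ⟨h1, h2⟩ := hP p hp
    rcases hφ with rfl | ⟨ψ, hψ, rfl⟩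
    · rcases h1 with h1 | h1 | h1 <;> simp [p0, c, h1]
    · rcases h2 with h2 | ⟨_, h2⟩
      · simpa [c] using hin _ h2 ψ hψ
      · simp [c, h2]
  · intro a ha
    obtain ⟨p, hp, rfl⟩ := Finset.mem_image.1 ha
    obtain ⟨h1, h2⟩ := hP p hp
    rcases h2 with h2 | ⟨h2, _⟩
    · obtain ⟨ψ, hψ, h⟩ := hbd _ h2
      exact ⟨_, mem_insert_of_mem _ ⟨ψ, hψ, rfl⟩, by simpa [c] using h⟩
    · exact ⟨p0, mem_insert _ _, by simp [p0, c, h2]⟩
  · intro a ha b hb hab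
    obtain ⟨p, hp, rfl⟩ := Finset.mem_image.1 ha
    obtain ⟨q, hq, rfl⟩ := Finset.mem_image.1 hb
    obtain ⟨h1, h2⟩ := hP p hp
    obtain ⟨h3, h4⟩ := hP q hq
    by_cases hpq : p.1 = q.1
    · have hne : p.2 ≠ q.2 := fun h => hab (congrArg c (Prod.ext hpq h))
      rcases h2 with h2 | ⟨_, h2⟩ <;> rcases h4 with h4 | ⟨_, h4⟩
      · obtain ⟨ψ, hψ, h⟩ := hsep _ h2 _ h4 hne
        exact ⟨_, mem_insert_of_mem _ ⟨ψ, hψ, rfl⟩, by simpa [c] using h⟩
      · obtain ⟨ψ, hψ, h⟩ := hbd _ h2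
        exact ⟨_, mem_insert_of_mem _ ⟨ψ, hψ, rfl⟩, by simpa [c, h4] using h⟩
      · obtain ⟨ψ, hψ, h⟩ := hbd _ h4
        exact ⟨_, mem_insert_of_mem _ ⟨ψ, hψ, rfl⟩, by simpa [c, h2] using h⟩
      · exact absurd (h2.trans h4.symm) hne
    · refine ⟨p0, mem_insert _ _, ?_⟩
      simp only [p0, c, LinearMap.proj_apply, Fin.cons_zero]
      rcases h1 with h1 | h1 | h1 <;> rcases h3 with h3 | h3 | h3 <;>
        first
          | exact absurd (h1.trans h3.symm) hpq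
          | (rw [h1, h3]; norm_num)
  · intro a ha
    obtain ⟨p, hp, rfl⟩ := Finset.mem_image.1 ha
    obtain ⟨h1, h2⟩ := hP p hp
    simp only [c, p0, LinearMap.add_apply, LinearMap.comp_apply, tailL_cons, LinearMap.smul_apply,
      LinearMap.proj_apply, Fin.cons_zero, smul_eq_mul]
    rcases h2 with h2 | ⟨h2, h3⟩
    · have := hηu _ h2
      rcases h1 with h1 | h1 | h1 <;> rw [h1] <;> linarith
    · rw [h2, h3]; simpa using hη

/-- The linear functional with coefficient vector `(p, q, r)` on three-space. -/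
def lin3 (p q r : ℝ) : (Fin 3 → ℝ) →ₗ[ℝ] ℝ :=
  p • LinearMap.proj 0 + q • LinearMap.proj 1 + r • LinearMap.proj 2

@[simp] lemma lin3_apply (p q r : ℝ) (x : Fin 3 → ℝ) :
    lin3 p q r x = p * x 0 + q * x 1 + r * x 2 := by
  simp [lin3]

/-- The fourteen points, as rational triples. -/
def pts : Fin 14 → ℚ × ℚ × ℚ :=
  ![(-1, -1, 1), (-1, 0, 1), (-1, 1, 1), (0, -1, 13 / 16), (0, 0, 1), (0, 1, 1),
    (1, -1, 5 / 8), (1, 0, 7 / 8), (1, 1, 1),
    (1, 3 / 4, 0), (1, -1 / 4, -1 / 4), (0, 1, 0), (-1, 1, 0), (1, 1, -31 / 32)]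

/-- The five functionals, as rational triples. -/
def fns : Fin 5 → ℚ × ℚ × ℚ :=
  ![(1, 0, 0), (0, 1, 0), (0, 0, 1), (1 / 8, -1 / 8, 1), (3 / 17, -4 / 17, 16 / 17)]

/-- Rational dot product. -/
def dot (f p : ℚ × ℚ × ℚ) : ℚ := f.1 * p.1 + f.2.1 * p.2.1 + f.2.2 * p.2.2

lemma chk_in : ∀ i k, |dot (fns k) (pts i)| ≤ 1 := by decide +kernel
lemma chk_bd : ∀ i, ∃ k, 1 ≤ |dot (fns k) (pts i)| := by decide +kernel
lemma chk_sep : ∀ i j, i ≠ j → ∃ k, 1 ≤ |dot (fns k) (pts i) - dot (fns k) (pts j)| := by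
  decide +kernel
lemma chk_u : ∀ i, 0 < dot (31, 32, 64) (pts i) := by decide +kernel

/-- Real point of a rational triple. -/
def toPt (p : ℚ × ℚ × ℚ) : Fin 3 → ℝ := ![p.1, p.2.1, p.2.2]

/-- Real functional of a rational triple. -/
def toFn (f : ℚ × ℚ × ℚ) : (Fin 3 → ℝ) →ₗ[ℝ] ℝ := lin3 f.1 f.2.1 f.2.2

lemma toFn_toPt (f p : ℚ × ℚ × ℚ) : toFn f (toPt p) = (dot f p : ℚ) := by
  simp [toFn, toPt, dot]

lemma good_three : Good 3 14 := by
  classical
  have hinj : Function.Injective (fun i => toPt (pts i)) := by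
    intro i j hij
    by_contra hne
    obtain ⟨k, hk⟩ := chk_sep i j hne
    have h1 := toFn_toPt (fns k) (pts i)
    have h2 := toFn_toPt (fns k) (pts j)
    have hij' : toPt (pts i) = toPt (pts j) := hij
    rw [hij', h2] at h1
    have : dot (fns k) (pts j) = dot (fns k) (pts i) := by exact_mod_cast h1
    rw [this] at hk
    norm_num at hk
  refine ⟨range (fun k => toFn (fns k)), Finset.univ.image (fun i => toPt (pts i)),
    toFn (31, 32, 64), 1, finite_range _, ?_, ?_, ?_, ?_, ?_, ?_⟩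
  · rw [Finset.card_image_of_injective _ hinj]; simp
  · intro x hx j
    have h0 := hx _ ⟨0, rfl⟩
    have h1 := hx _ ⟨1, rfl⟩
    have h2 := hx _ ⟨2, rfl⟩
    fin_cases j
    · simpa [toFn, fns] using h0
    · simpa [toFn, fns] using h1
    · simpa [toFn, fns] using h2
  · intro a ha φ hφ
    obtain ⟨i, -, rfl⟩ := Finset.mem_image.1 ha
    obtain ⟨k, rfl⟩ := hφ
    simp only [toFn_toPt]
    exact_mod_cast chk_in i k
  · intro a ha
    obtain ⟨i, -, rfl⟩ := Finset.mem_image.1 ha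
    obtain ⟨k, hk⟩ := chk_bd i
    refine ⟨_, ⟨k, rfl⟩, ?_⟩
    simp only [toFn_toPt]
    exact_mod_cast hk
  · intro a ha b hb hab
    obtain ⟨i, -, rfl⟩ := Finset.mem_image.1 ha
    obtain ⟨j, -, rfl⟩ := Finset.mem_image.1 hb
    obtain ⟨k, hk⟩ := chk_sep i j (fun h => hab (by rw [h]))
    refine ⟨_, ⟨k, rfl⟩, ?_⟩
    simp only [toFn_toPt]
    exact_mod_cast hk
  · intro a ha
    obtain ⟨i, -, rfl⟩ := Finset.mem_image.1 ha
    simp only [toFn_toPt]
    exact_mod_cast chk_u i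

lemma good_all (k : ℕ) : ∃ n, Good (k + 3) n ∧ 2 * n + 1 = 29 * 3 ^ k := by
  induction k with
  | zero => exact ⟨14, good_three, by norm_num⟩
  | succ k ih =>
    obtain ⟨n, hn, h⟩ := ih
    exact ⟨3 * n + 1, hn.step, by rw [pow_succ]; omega⟩

end Pool.Agent.MP_39e5ce_co
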